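import Pool.Agent.Q27.VS.Stm2

/-!
# The dense case (project VS2 of helper27, job DENSE)
-/

set_option autoImplicit false

open Set Topology Filter

namespace Pool.Agent.Q96.VS

open Pool.Agent.Q27.VS

section

variable {X : Type} [TopologicalSpace X]

theorem conj_pw (g σ : X ≃ₜ X) (j : ℕ) (x : X) :
    ((g * σ * g⁻¹) ^ j) (g x) = g ((σ ^ j) x) := by
  rw [_root_.conj_pow]
  show g ((σ ^ j) (g⁻¹ (g x))) = _
  congr 2
  exact g.symm_apply_apply x

theorem pow_add_apply (σ : X ≃ₜ X) (a b : ℕ) (x : X) : (σ ^ a) ((σ ^ b) x) = (σ ^ (a + b)) x := by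
  rw [pow_add]; rfl

theorem inv_apply_self' (g : X ≃ₜ X) (x : X) : g⁻¹ (g x) = x := g.symm_apply_apply x

theorem apply_inv_self' (g : X ≃ₜ X) (x : X) : g (g⁻¹ x) = x := g.apply_symm_apply x

theorem lev_lt {k M : ℕ} (v : Lev k M) {l : ℕ} (h : v.IsE l) : 0 < l ∧ l < v.L := by
  rcases h with ⟨ι, rfl⟩ | ⟨ι, rfl⟩ | ⟨j, rfl⟩ | ⟨j, rfl⟩
  · exact ⟨v.apos ι, v.aL ι⟩
  · exact ⟨v.bpos ι, v.bL ι⟩
  · have := v.pL j
    exact ⟨v.ppos j, by omega⟩
  · exact ⟨by omega, v.pL j⟩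

/-- different levels are different -/
theorem lev_ne {σ : X ≃ₜ X} {n : ℕ} {U : Set X} (hU : Marker σ n U) {s l : ℕ} (hsn : s < n)
    (hln : l < n) {u u' : X} (hu : u ∈ U) (hu' : u' ∈ U) (h : (σ ^ s) u = (σ ^ l) u') : s = l := by
  by_contra hne
  rcases Nat.lt_or_ge l s with h1 | h1
  · have h2 : (σ ^ (s - l)) u = u' := by
      have h3 : (σ ^ l) ((σ ^ (s - l)) u) = (σ ^ l) u' := by
        rw [pow_add_apply, Nat.add_sub_cancel' h1.le, h]
      exact (σ ^ l).injective h3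
    have h4 := hU.dis ((s - l : ℕ) : ℤ) (by omega) (by rw [abs_of_nonneg (by omega)]; omega) u hu
    rw [zpow_natCast, h2] at h4
    exact h4 hu'
  · have h2 : (σ ^ (l - s)) u' = u := by
      have h3 : (σ ^ s) ((σ ^ (l - s)) u') = (σ ^ s) u := by
        rw [pow_add_apply, Nat.add_sub_cancel' h1, h]
      exact (σ ^ s).injective h3
    have h4 := hU.dis ((l - s : ℕ) : ℤ) (by omega) (by rw [abs_of_nonneg (by omega)]; omega) u' hu'
    rw [zpow_natCast, h2] at h4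
    exact h4 hu

end

theorem dense (X : Type) [TopologicalSpace X] : S_dense X := by
  intro G k M v n hn σ U hU hne φ α g hg i m halt
  obtain ⟨halt1, halt2⟩ := halt
  set β : X ≃ₜ X := g * σ * g⁻¹ with hβ
  set K := Subgroup.closure ({α i, β} : Set (X ≃ₜ X)) with hK
  have hαK : α i ∈ K := Subgroup.subset_closure (Or.inl rfl)
  have hβK : β ∈ K := Subgroup.subset_closure (Or.inr rfl)
  have hLpos : 0 < v.L := lt_of_le_of_lt (Nat.zero_le _) (v.pL i)
  -- points at level `s`, `L ≤ s < 2 L`, are neither in `U` nor at a special level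
  have hbig : ∀ s, v.L ≤ s → s < 2 * v.L → ∀ u ∈ U, (σ ^ s) u ∉ U ∧
      ∀ l, v.IsE l → ∀ u' ∈ U, (σ ^ s) u ≠ (σ ^ l) u' := by
    intro s hs1 hs2 u hu
    constructor
    · intro h
      have := lev_ne hU (s := s) (l := 0) (by omega) (by omega) hu h (by rw [pow_zero]; rfl)
      omega
    · intro l hl u' hu' h
      have h1 := lev_lt v hl
      have := lev_ne hU (s := s) (l := l) (by omega) (by omega) hu hu' h
      omega
  set a := v.a (i, m, true) with ha
  set b := v.b (i, m, true) with hb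
  set t : X ≃ₜ X := (β ^ b)⁻¹ * α i * β ^ a with ht
  set h : X ≃ₜ X := α i * β ^ v.L * α i with hh
  have htK : t ∈ K := K.mul_mem (K.mul_mem (K.inv_mem (K.pow_mem hβK _)) hαK) (K.pow_mem hβK _)
  have hhK : h ∈ K := K.mul_mem (K.mul_mem hαK (K.pow_mem hβK _)) hαK
  -- (1)
  have h1 : ∀ u ∈ U, t (g u) = g u := by
    intro u hu
    show (β ^ b)⁻¹ (α i ((β ^ a) (g u))) = g u
    rw [hβ, conj_pw, ha, hg.eng (i, m, true) u hu]
    have : enM φ (i, m, true) u = u := by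
      show (if true then (1 : X ≃ₜ X) else _) u = u
      rw [if_pos rfl]; rfl
    rw [this, ← conj_pw g σ, ← hβ, ← hb]
    exact inv_apply_self' _ _
  -- (2)
  have h2 : ∀ x, x ∉ U → h (g x) ∈ g '' U := by
    intro x hx
    -- `α i (g x) = g z` with `z` in `U` or at a special level
    have hz : ∃ s, s < v.L ∧ ∃ u ∈ U, α i (g x) = g ((σ ^ s) u) := by
      by_cases hE : ∀ l, v.IsE l → ∀ u ∈ U, x ≠ (σ ^ l) u
      · obtain ⟨u, hu, hu2⟩ := halt1 x hx hE
        exact ⟨0, hLpos, u, hu, hu2.symm⟩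
      · push Not at hE
        obtain ⟨l, hl, u, hu, rfl⟩ := hE
        rcases halt2 l hl u hu with ⟨u', hu', h'⟩ | ⟨l', hl', u', hu', h'⟩
        · exact ⟨0, hLpos, u', hu', h'.symm⟩
        · exact ⟨l', (lev_lt v hl').2, u', hu', h'⟩
    obtain ⟨s, hs, u, hu, hsu⟩ := hz
    show α i ((β ^ v.L) (α i (g x))) ∈ g '' U
    rw [hsu, hβ, conj_pw, pow_add_apply]
    obtain ⟨h3, h4⟩ := hbig (v.L + s) (by omega) (by omega) u hu
    exact halt1 _ h3 h4
  refine ⟨h * t * h⁻¹, K.mul_mem (K.mul_mem hhK htK) (K.inv_mem hhK), ?_, ?_⟩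
  · -- (4)
    intro h0
    have ht1 : t = 1 := by
      have : h⁻¹ * (h * t * h⁻¹) * h = h⁻¹ * 1 * h := by rw [h0]
      simpa [mul_assoc] using this
    obtain ⟨u, hu⟩ := hne
    have h5 : t (g ((σ ^ v.L) u)) = g ((σ ^ v.L) u) := by rw [ht1]; rfl
    have h6 : α i ((β ^ a) (g ((σ ^ v.L) u))) = (β ^ b) (g ((σ ^ v.L) u)) := by
      have h7 : (β ^ b) (t (g ((σ ^ v.L) u))) = (β ^ b) (g ((σ ^ v.L) u)) := by rw [h5]
      rw [← h7]
      show _ = (β ^ b) ((β ^ b)⁻¹ (α i ((β ^ a) (g ((σ ^ v.L) u)))))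
      rw [apply_inv_self']
    rw [hβ, conj_pw, conj_pw, pow_add_apply, pow_add_apply] at h6
    have haL := v.aL (i, m, true)
    have hbL := v.bL (i, m, true)
    rw [← ha] at haL
    rw [← hb] at hbL
    obtain ⟨h8, h9⟩ := hbig (a + v.L) (by omega) (by omega) u hu
    obtain ⟨u', hu', h10⟩ := halt1 _ h8 h9
    rw [h6] at h10
    have h11 := g.injective h10
    have h12 := (hbig (b + v.L) (by omega) (by omega) u hu).1
    rw [← h11] at h12
    exact h12 hu'
  · -- (3)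
    intro y hy
    show h (t (h⁻¹ y)) = y
    have hmem : h⁻¹ y ∈ g '' U := by
      by_contra hcon
      have h3 : ∃ x, x ∉ U ∧ h⁻¹ y = g x := by
        refine ⟨g⁻¹ (h⁻¹ y), fun hx => hcon ⟨_, hx, apply_inv_self' g _⟩, (apply_inv_self' g _).symm⟩
      obtain ⟨x, hx, hx2⟩ := h3
      have h4 := h2 x hx
      rw [← hx2, apply_inv_self'] at h4
      exact hy h4
    obtain ⟨u, hu, hu2⟩ := hmem
    rw [← hu2, h1 u hu, hu2, apply_inv_self']

end Pool.Agent.Q96.VS
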