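import Pool.Agent.Q27.VS.Stm2

/-!
# The levels of the engines (project VS2 of helper27, job LEVELS)
-/

set_option autoImplicit false

namespace Pool.Agent.Q96.VS

open Pool.Agent.Q27.VS

/-- the number with digits `f t`, `t < N` -/
def ev (N : ℕ) (f : ℕ → ℕ) : ℕ := ∑ t ∈ Finset.range N, f t * 10 ^ t

theorem ev_succ (N : ℕ) (f : ℕ → ℕ) : ev (N + 1) f = f 0 + 10 * ev N (fun t => f (t + 1)) := by
  unfold ev
  rw [Finset.sum_range_succ', Finset.mul_sum, add_comm]
  congr 1
  · simp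
  · refine Finset.sum_congr rfl fun t _ => ?_
    rw [pow_succ]
    ring

theorem ev_inj : ∀ (N : ℕ) (f g : ℕ → ℕ), (∀ t, f t < 10) → (∀ t, g t < 10) →
    ev N f = ev N g → ∀ t, t < N → f t = g t := by
  intro N
  induction N with
  | zero => intro f g _ _ _ t ht; omega
  | succ N ih =>
    intro f g hf hg h t ht
    rw [ev_succ, ev_succ] at h
    have h0 := hf 0
    have h0' := hg 0
    have h1 : f 0 = g 0 := by omega
    have h2 : ev N (fun t => f (t + 1)) = ev N (fun t => g (t + 1)) := by omega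
    rcases t with _ | t
    · exact h1
    · exact ih _ _ (fun t => hf (t + 1)) (fun t => hg (t + 1)) h2 t (by omega)

theorem ev_add (N : ℕ) (f g : ℕ → ℕ) : ev N f + ev N g = ev N (fun t => f t + g t) := by
  unfold ev
  rw [← Finset.sum_add_distrib]
  exact Finset.sum_congr rfl fun t _ => by ring

theorem ev_pos {N : ℕ} {f : ℕ → ℕ} {t : ℕ} (ht : t < N) (hf : f t ≠ 0) : 0 < ev N f := by
  unfold ev
  refine lt_of_lt_of_le ?_ (Finset.single_le_sum (f := fun t => f t * 10 ^ t)
    (fun i _ => Nat.zero_le _) (Finset.mem_range.2 ht))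
  positivity

theorem ev_lt (N : ℕ) (f : ℕ → ℕ) (hf : ∀ t, f t < 10) : ev N f < 10 ^ N := by
  induction N generalizing f with
  | zero => simp [ev]
  | succ N ih =>
    rw [ev_succ, pow_succ]
    have h1 := ih (fun t => f (t + 1)) (fun t => hf (t + 1))
    have h2 := hf 0
    omega

section

variable (k M : ℕ)

/-- the number of the pair `(i, m)` -/
def qq (i : Fin k) (m : Fin M) : ℕ := (finProdFinEquiv (i, m) : Fin (k * M))

theorem qq_lt (i : Fin k) (m : Fin M) : qq k M i m < k * M := (finProdFinEquiv (i, m)).2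

theorem qq_inj {i i' : Fin k} {m m' : Fin M} (h : qq k M i m = qq k M i' m') :
    i = i' ∧ m = m' := by
  have h1 : finProdFinEquiv (i, m) = finProdFinEquiv (i', m') := Fin.ext h
  have h2 := finProdFinEquiv.injective h1
  exact ⟨congrArg Prod.fst h2, congrArg Prod.snd h2⟩

/-- digits of `a` -/
def va (ι : Fin k × Fin M × Bool) (t : ℕ) : ℕ :=
  if t = 3 * qq k M ι.1 ι.2.1 + 1 + ι.2.2.toNat then 1 else 0

/-- digits of `b` -/
def vb (ι : Fin k × Fin M × Bool) (t : ℕ) : ℕ :=
  (if t = 3 * qq k M ι.1 ι.2.1 + 1 + ι.2.2.toNat then 1 else 0) +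
    (if t = 3 * qq k M ι.1 ι.2.1 + 3 then 1 else 0)

/-- digits of `p` -/
def vp (i : Fin k) (t : ℕ) : ℕ := if t = 3 * (k * M) + 1 + i then 1 else 0

/-- digits of `p + 1` -/
def vp1 (i : Fin k) (t : ℕ) : ℕ :=
  (if t = 3 * (k * M) + 1 + i then 1 else 0) + (if t = 0 then 1 else 0)

/-- the digits of a level which is `0` or special -/
def Dig (v : ℕ → ℕ) : Prop :=
  v = (fun _ => 0) ∨ (∃ ι, v = va k M ι) ∨ (∃ ι, v = vb k M ι) ∨ (∃ i, v = vp k M i) ∨
    ∃ i, v = vp1 k M i

theorem va_le (ι : Fin k × Fin M × Bool) (t : ℕ) : va k M ι t ≤ 1 := by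
  unfold va; split_ifs <;> omega

theorem vb_le (ι : Fin k × Fin M × Bool) (t : ℕ) : vb k M ι t ≤ 1 := by
  have h : ι.2.2.toNat ≤ 1 := by cases ι.2.2 <;> simp
  unfold vb
  split_ifs <;> omega

theorem vp_le (i : Fin k) (t : ℕ) : vp k M i t ≤ 1 := by
  unfold vp; split_ifs <;> omega

theorem vp1_le (i : Fin k) (t : ℕ) : vp1 k M i t ≤ 1 := by
  unfold vp1; split_ifs <;> omega

theorem dig_le {v : ℕ → ℕ} (h : Dig k M v) (t : ℕ) : v t ≤ 1 := by
  rcases h with rfl | ⟨ι, rfl⟩ | ⟨ι, rfl⟩ | ⟨i, rfl⟩ | ⟨i, rfl⟩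
  · exact Nat.zero_le _
  · exact va_le k M ι t
  · exact vb_le k M ι t
  · exact vp_le k M i t
  · exact vp1_le k M i t

/-- the number of digits -/
def NN : ℕ := 3 * (k * M) + k + 2

theorem ev_vp1 (i : Fin k) : ev (NN k M) (vp k M i) + 1 = ev (NN k M) (vp1 k M i) := by
  have h1 : (1 : ℕ) = ev (NN k M) (fun t => if t = 0 then 1 else 0) := by
    unfold ev NN
    rw [Finset.sum_eq_single 0]
    · simp
    · intro b _ hb; simp [hb]
    · intro h; simp at h
  conv_lhs => rw [h1]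
  rw [ev_add]
  rfl

/-- two levels with the same value have the same digits -/
theorem dig_inj {v w : ℕ → ℕ} (hv : Dig k M v) (hw : Dig k M w)
    (h : ev (NN k M) v = ev (NN k M) w) : ∀ t, t < NN k M → v t = w t :=
  ev_inj _ v w (fun t => lt_of_le_of_lt (dig_le k M hv t) (by norm_num))
    (fun t => lt_of_le_of_lt (dig_le k M hw t) (by norm_num)) h

theorem toNat_le (b : Bool) : b.toNat ≤ 1 := by cases b <;> simp

theorem toNat_inj {b c : Bool} (h : b.toNat = c.toNat) : b = c := by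
  cases b <;> cases c <;> simp_all

end

theorem levels : S_levels := by
  intro k M
  have hq := qq_lt k M
  have hN : NN k M = 3 * (k * M) + k + 2 := rfl
  have ha : ∀ ι, Dig k M (va k M ι) := fun ι => Or.inr (Or.inl ⟨ι, rfl⟩)
  have hb : ∀ ι, Dig k M (vb k M ι) := fun ι => Or.inr (Or.inr (Or.inl ⟨ι, rfl⟩))
  have hp : ∀ i, Dig k M (vp k M i) := fun i => Or.inr (Or.inr (Or.inr (Or.inl ⟨i, rfl⟩)))
  have hp1 : ∀ i, Dig k M (vp1 k M i) := fun i => Or.inr (Or.inr (Or.inr (Or.inr ⟨i, rfl⟩)))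
  have bnd : ∀ v, Dig k M v → ev (NN k M) v < 10 ^ (NN k M) := fun v hv =>
    ev_lt _ _ fun t => lt_of_le_of_lt (dig_le k M hv t) (by norm_num)
  have hpos : ∀ ι : Fin k × Fin M × Bool,
      3 * qq k M ι.1 ι.2.1 + 1 + ι.2.2.toNat < NN k M ∧ 3 * qq k M ι.1 ι.2.1 + 3 < NN k M := by
    intro ι
    have h1 := hq ι.1 ι.2.1
    have h2 := toNat_le ι.2.2
    have h3 := ι.1.2
    constructor <;> omega
  refine ⟨{
    a := fun ι => ev (NN k M) (va k M ι)
    b := fun ι => ev (NN k M) (vb k M ι)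
    p := fun i => ev (NN k M) (vp k M i)
    L := 10 ^ (NN k M)
    apos := ?_
    bpos := ?_
    ppos := ?_
    aL := fun ι => bnd _ (ha ι)
    bL := fun ι => bnd _ (hb ι)
    pL := fun i => by rw [ev_vp1]; exact bnd _ (hp1 i)
    ainj := ?_
    binj := ?_
    pinj := ?_
    ab := ?_
    ap := ?_
    ap1 := ?_
    bp := ?_
    bp1 := ?_
    pp1 := ?_
    diff := ?_
    comb := ?_ }⟩
  · intro ι
    exact ev_pos (hpos ι).1 (by simp [va])
  · intro ι
    exact ev_pos (hpos ι).1 (by simp [vb])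
  · intro i
    have hi := i.2
    exact ev_pos (t := 3 * (k * M) + 1 + i) (by omega) (by simp [vp])
  · intro ι κ h
    have h1 := dig_inj k M (ha ι) (ha κ) h _ (hpos ι).1
    simp only [va, if_true] at h1
    have h2 := toNat_le ι.2.2
    have h3 := toNat_le κ.2.2
    have h4 : 3 * qq k M ι.1 ι.2.1 + 1 + ι.2.2.toNat = 3 * qq k M κ.1 κ.2.1 + 1 + κ.2.2.toNat := by
      by_contra hne
      rw [if_neg hne] at h1
      exact one_ne_zero h1
    obtain ⟨h5, h6⟩ := qq_inj k M (show qq k M ι.1 ι.2.1 = qq k M κ.1 κ.2.1 by omega)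
    have h7 := toNat_inj (show ι.2.2.toNat = κ.2.2.toNat by omega)
    exact Prod.ext h5 (Prod.ext h6 h7)
  · intro ι κ h
    have h2 := toNat_le ι.2.2
    have h3 := toNat_le κ.2.2
    have h1 := dig_inj k M (hb ι) (hb κ) h _ (hpos ι).1
    have h1' := dig_inj k M (hb ι) (hb κ) h _ (hpos ι).2
    simp only [vb] at h1 h1'
    have h5 : qq k M ι.1 ι.2.1 = qq k M κ.1 κ.2.1 := by
      split_ifs at h1' <;> omega
    have h6 : ι.2.2.toNat = κ.2.2.toNat := by
      split_ifs at h1 <;> omega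
    obtain ⟨h7, h8⟩ := qq_inj k M h5
    exact Prod.ext h7 (Prod.ext h8 (toNat_inj h6))
  · intro i j h
    have hi := i.2
    have h1 := dig_inj k M (hp i) (hp j) h (3 * (k * M) + 1 + i) (by omega)
    simp only [vp, if_true] at h1
    apply Fin.ext
    split_ifs at h1 <;> omega
  · intro ι κ h
    have h2 := toNat_le ι.2.2
    have h3 := toNat_le κ.2.2
    have h1' := dig_inj k M (ha ι) (hb κ) h _ (hpos κ).2
    simp only [va, vb, if_true] at h1'
    split_ifs at h1' <;> omega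
  · intro ι i h
    have h2 := toNat_le ι.2.2
    have h3 := hq ι.1 ι.2.1
    have h1' := dig_inj k M (ha ι) (hp i) h _ (hpos ι).1
    simp only [va, vp, if_true] at h1'
    split_ifs at h1' <;> omega
  · intro ι i h
    rw [ev_vp1] at h
    have h2 := toNat_le ι.2.2
    have h3 := hq ι.1 ι.2.1
    have h1' := dig_inj k M (ha ι) (hp1 i) h _ (hpos ι).1
    simp only [va, vp1, if_true] at h1'
    split_ifs at h1' <;> omega
  · intro ι i h
    have h2 := toNat_le ι.2.2
    have h3 := hq ι.1 ι.2.1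
    have h1' := dig_inj k M (hb ι) (hp i) h _ (hpos ι).1
    simp only [vb, vp, if_true] at h1'
    split_ifs at h1' <;> omega
  · intro ι i h
    rw [ev_vp1] at h
    have h2 := toNat_le ι.2.2
    have h3 := hq ι.1 ι.2.1
    have h1' := dig_inj k M (hb ι) (hp1 i) h _ (hpos ι).1
    simp only [vb, vp1, if_true] at h1'
    split_ifs at h1' <;> omega
  · intro i j h
    rw [ev_vp1] at h
    have h1' := dig_inj k M (hp i) (hp1 j) h 0 (by omega)
    simp only [vp, vp1] at h1'
    split_ifs at h1' <;> omega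
  · intro i m
    rw [ev_add, ev_add]
    congr 1
    funext t
    simp only [va, vb]
    simp only [Bool.toNat_false, Bool.toNat_true]
    omega
  · intro i m m' hm ν ν' l l' hl hl' h
    have cl : ∀ l, (l = 0 ∨ (∃ ι, l = ev (NN k M) (va k M ι)) ∨
        (∃ ι, l = ev (NN k M) (vb k M ι)) ∨ (∃ j, l = ev (NN k M) (vp k M j)) ∨
        ∃ j, l = ev (NN k M) (vp k M j) + 1) → ∃ v, Dig k M v ∧ l = ev (NN k M) v := by
      rintro l (rfl | ⟨ι, rfl⟩ | ⟨ι, rfl⟩ | ⟨j, rfl⟩ | ⟨j, rfl⟩)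
      · exact ⟨fun _ => 0, Or.inl rfl, by simp [ev]⟩
      · exact ⟨_, ha ι, rfl⟩
      · exact ⟨_, hb ι, rfl⟩
      · exact ⟨_, hp j, rfl⟩
      · exact ⟨_, hp1 j, ev_vp1 k M j⟩
    obtain ⟨v, hv, rfl⟩ := cl l hl
    obtain ⟨v', hv', rfl⟩ := cl l' hl'
    simp only [ev_add] at h
    have e := ev_inj _ _ _ (fun t => by
      have h1 := dig_le k M hv t
      have h2 := vb_le k M (i, m', ν') t
      omega) (fun t => by
      have h1 := dig_le k M hv' t
      have h2 := vb_le k M (i, m, ν) t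
      omega) h
    have hqq : qq k M i m ≠ qq k M i m' := fun h => hm (qq_inj k M h).2
    have n1 := toNat_le ν
    have n2 := toNat_le ν'
    have h3 := e _ (hpos (i, m, ν)).2
    have h1 := e _ (hpos (i, m, ν)).1
    simp only [vb] at h3 h1
    have hq1 := hq i m
    have hv3 : v (3 * qq k M i m + 3) ≠ 0 := by
      intro h0
      rw [h0] at h3
      split_ifs at h3 <;> omega
    have hv1 : v (3 * qq k M i m + 1 + ν.toNat) ≠ 0 := by
      intro h0
      rw [h0] at h1
      split_ifs at h1 <;> omega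
    rcases hv with rfl | ⟨κ, rfl⟩ | ⟨κ, rfl⟩ | ⟨j, rfl⟩ | ⟨j, rfl⟩
    · exact absurd rfl hv3
    · have n3 := toNat_le κ.2.2
      simp only [va, ne_eq, ite_eq_right_iff, Classical.not_imp] at hv3
      omega
    · have n3 := toNat_le κ.2.2
      simp only [vb] at hv3 hv1
      have h5 : qq k M i m = qq k M κ.1 κ.2.1 := by
        split_ifs at hv3 <;> omega
      have h6 : ν.toNat = κ.2.2.toNat := by
        split_ifs at hv1 <;> omega
      obtain ⟨h7, h8⟩ := qq_inj k M h5
      have h9 := toNat_inj h6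
      have h10 : κ = (i, m, ν) := Prod.ext h7.symm (Prod.ext h8.symm h9.symm)
      rw [h10]
    · simp only [vp] at hv3
      split_ifs at hv3 <;> omega
    · refine absurd ?_ hv3
      unfold vp1
      rw [if_neg (by omega), if_neg (by omega)]

end Pool.Agent.Q96.VS
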