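import Pool.Agent.Q27.VS.Stm2

/-!
# Marker sets (project VS2 of helper27, job MARK)
-/

set_option autoImplicit false

open Set Topology Filter

namespace Pool.Agent.Q96.VS

open Pool.Agent.Q27.VS

theorem mark (X : Type) [TopologicalSpace X] [CSp X] : S_mark X := by
  intro σ hσ n hn
  set Small : Set X → Prop := fun V => ∀ j : ℤ, j ≠ 0 → |j| < n → ∀ x ∈ V, (σ ^ j) x ∉ V with hS
  have hback : ∀ (j : ℤ) (x : X), (σ ^ (-j)) ((σ ^ j) x) = x := by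
    intro j x
    rw [← Homeomorph.mul_apply, ← zpow_add, neg_add_cancel, zpow_zero]
    rfl
  -- small neighbourhoods
  have hsmall : ∀ x : X, ∃ V, IsClopen V ∧ x ∈ V ∧ Small V := by
    intro x
    have h1 : ∀ j : ℤ, ∃ W ∈ 𝓝 x, j ≠ 0 → ∀ y ∈ W, (σ ^ j) y ∉ W := by
      intro j
      by_cases hj : j = 0
      · exact ⟨univ, univ_mem, fun h => absurd hj h⟩
      · obtain ⟨A, B, hA, hB, hxA, hxB, hAB⟩ := t2_separation (hσ x j hj).symm
        refine ⟨A ∩ (σ ^ j) ⁻¹' B, ((hA.inter (hB.preimage (σ ^ j).continuous)).mem_nhds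
          ⟨hxA, hxB⟩), fun _ y hy h => ?_⟩
        exact hAB.le_bot ⟨h.1, hy.2⟩
    choose W hW hW2 using h1
    have h2 : (⋂ j ∈ Finset.Ioo (-(n : ℤ)) n, W j) ∈ 𝓝 x :=
      (Filter.biInter_finset_mem _).2 fun j _ => hW j
    obtain ⟨V, hV, hxV, hVW⟩ := clopen_nhd h2
    refine ⟨V, hV, hxV, fun j hj hjn y hy h => ?_⟩
    have hmem : j ∈ Finset.Ioo (-(n : ℤ)) n := by
      rw [Finset.mem_Ioo]
      exact abs_lt.1 hjn
    have h3 : ∀ z ∈ V, z ∈ W j := fun z hz => (mem_iInter₂.1 (hVW hz)) j hmem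
    exact hW2 j hj y (h3 y hy) (h3 _ h)
  have key : ∀ F : Set X, IsClopen F → Small F → ∃ F', IsClopen F' ∧ Small F' ∧ F ⊆ F' ∧
      ∀ x ∈ (univ : Set X), ∃ j : ℤ, |j| < n ∧ (σ ^ j) x ∈ F' := by
    refine isCompact_univ.induction_on (p := fun S => ∀ F : Set X, IsClopen F → Small F →
      ∃ F', IsClopen F' ∧ Small F' ∧ F ⊆ F' ∧ ∀ x ∈ S, ∃ j : ℤ, |j| < n ∧ (σ ^ j) x ∈ F')
      ?_ ?_ ?_ ?_
    · intro F hF hF2
      exact ⟨F, hF, hF2, Subset.rfl, fun x hx => hx.elim⟩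
    · intro s t hst h F hF hF2
      obtain ⟨F', h1, h2, h3, h4⟩ := h F hF hF2
      exact ⟨F', h1, h2, h3, fun x hx => h4 x (hst hx)⟩
    · intro s t hs ht F hF hF2
      obtain ⟨F', h1, h2, h3, h4⟩ := hs F hF hF2
      obtain ⟨F'', h1', h2', h3', h4'⟩ := ht F' h1 h2
      refine ⟨F'', h1', h2', h3.trans h3', ?_⟩
      rintro x (hx | hx)
      · obtain ⟨j, hj, hj2⟩ := h4 x hx
        exact ⟨j, hj, h3' hj2⟩
      · exact h4' x hx
    · intro x _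
      obtain ⟨V, hV, hxV, hVs⟩ := hsmall x
      refine ⟨V, mem_nhdsWithin_of_mem_nhds (hV.isOpen.mem_nhds hxV), fun F hF hF2 => ?_⟩
      have hT : IsClopen (⋃ j ∈ Finset.Ioo (-(n : ℤ)) n, (σ ^ j) ⁻¹' F) :=
        isClopen_biUnion_finset fun j _ => hF.preimage (σ ^ j).continuous
      have hmem : ∀ z : X, z ∈ (⋃ j ∈ Finset.Ioo (-(n : ℤ)) n, (σ ^ j) ⁻¹' F) ↔
          ∃ j : ℤ, |j| < n ∧ (σ ^ j) z ∈ F := by
        intro z
        simp only [mem_iUnion, Finset.mem_Ioo, mem_preimage, exists_prop, abs_lt]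
      refine ⟨F ∪ (V \ ⋃ j ∈ Finset.Ioo (-(n : ℤ)) n, (σ ^ j) ⁻¹' F), hF.union (hV.diff hT), ?_,
        subset_union_left, ?_⟩
      · rintro j hj hjn y (hy | hy) (h | h)
        · exact hF2 j hj hjn y hy h
        · exact h.2 ((hmem _).2 ⟨-j, by rwa [abs_neg], by rwa [hback]⟩)
        · exact hy.2 ((hmem _).2 ⟨j, hjn, h⟩)
        · exact hVs j hj hjn y hy.1 h.1
      · intro y hy
        by_cases h : y ∈ (⋃ j ∈ Finset.Ioo (-(n : ℤ)) n, (σ ^ j) ⁻¹' F)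
        · obtain ⟨j, hj, hj2⟩ := (hmem _).1 h
          exact ⟨j, hj, Or.inl hj2⟩
        · refine ⟨0, by simpa using hn, Or.inr ⟨?_, ?_⟩⟩ <;> rw [zpow_zero]
          · exact hy
          · exact h
  obtain ⟨U, h1, h2, -, h4⟩ := key ∅ isClopen_empty fun j _ _ x hx => hx.elim
  exact ⟨U, ⟨h1, h2, fun x => h4 x (mem_univ x)⟩⟩

end Pool.Agent.Q96.VS
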